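import Pool.Agent.Helper42.SG.GoalsT
import Pool.Agent.Helper29.BL.PS

set_option autoImplicit false

namespace Pool.Agent.Helper36.SGT

open WeierstrassCurve Height
open Pool.Agent.Helper29.BL Pool.Agent.Helper92.Ru Pool.Agent.Helper42.SG

theorem term_le (n k0 q : ℕ) (hn : 1 ≤ n) (hq : 1 ≤ q) (c B M M' N N' L L' O O' : ℝ)
    (hc : 1 ≤ c) (hB : 1 ≤ B) (hM : 1 ≤ M) (hM' : 1 ≤ M') (hN : 1 ≤ N) (hN' : 1 ≤ N')
    (hL : 0 ≤ L) (hL' : 0 ≤ L') (hO : 1 ≤ O) (hO' : 1 ≤ O')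
    (h1 : M ^ (2 * q) * N ^ 2 ≤ B ^ q * L * O) (h2 : M' ^ (2 * q) * N' ^ 2 ≤ B ^ q * L' * O') :
    ((c * M) * (c * M')) ^ (2 * q * n + q) * ((c * N) * (c * N')) ^ (2 * n) /
        (min (c * M) (c * M')) ^ (k0 * q) ≤
      (B ^ (2 * n) * c ^ (10 * n)) ^ q * ((L ^ n * M ^ q) * (L' ^ n * M' ^ q)) * (O ^ n * O' ^ n) /
        (min M M') ^ (k0 * q) := by
  have hmin : 1 ≤ min M M' := le_min hM hM'
  have e0 : min (c * M) (c * M') = c * min M M' := by
    rw [mul_min_of_nonneg _ _ (by linarith)]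
  have e1 : ((c * M) * (c * M')) ^ (2 * q * n + q) * ((c * N) * (c * N')) ^ (2 * n) =
      c ^ (4 * q * n + 2 * q + 4 * n) * ((M ^ (2 * q) * N ^ 2) ^ n * (M' ^ (2 * q) * N' ^ 2) ^ n) *
        (M ^ q * M' ^ q) := by
    ring
  have e2 : (B ^ (2 * n) * c ^ (10 * n)) ^ q * ((L ^ n * M ^ q) * (L' ^ n * M' ^ q)) *
      (O ^ n * O' ^ n) =
      c ^ (10 * n * q) * ((B ^ q * L * O) ^ n * (B ^ q * L' * O') ^ n) * (M ^ q * M' ^ q) := by
    ring
  have h3 : c ^ (4 * q * n + 2 * q + 4 * n) ≤ c ^ (10 * n * q) := by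
    apply pow_le_pow_right₀ hc
    nlinarith [Nat.mul_le_mul hn hq, Nat.mul_le_mul hn (le_refl q), Nat.mul_le_mul (le_refl n) hq]
  have h4 : ((c * M) * (c * M')) ^ (2 * q * n + q) * ((c * N) * (c * N')) ^ (2 * n) ≤
      (B ^ (2 * n) * c ^ (10 * n)) ^ q * ((L ^ n * M ^ q) * (L' ^ n * M' ^ q)) *
        (O ^ n * O' ^ n) := by
    rw [e1, e2]
    gcongr
  have h5 : (min M M') ^ (k0 * q) ≤ (min (c * M) (c * M')) ^ (k0 * q) := by
    rw [e0]
    gcongr
    nlinarith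
  have hpos : 0 < (min M M') ^ (k0 * q) := by positivity
  apply div_le_div₀ _ h4 hpos h5
  positivity

theorem prod_two (n : ℕ) (f : ℕ → ℝ) :
    ∏ h ∈ Finset.range (2 * n), f h = ∏ j ∈ Finset.range n, (f (2 * j) * f (2 * j + 1)) := by
  induction n with
  | zero => simp
  | succ n ih =>
    rw [show 2 * (n + 1) = 2 * n + 1 + 1 by ring, Finset.prod_range_succ, Finset.prod_range_succ,
      Finset.prod_range_succ, ih]
    ring

theorem keyB_le (n k0 : ℕ) (e : ℕ → ℕ) (hn : 1 ≤ n) (c B : ℝ) (M L O : ℕ → ℝ) (hc : 1 ≤ c)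
    (hB : 1 ≤ B) (hM : ∀ h, 1 ≤ M h) (hL : ∀ h, 0 ≤ L h) (hO : ∀ h, 1 ≤ O h)
    (h33 : ∀ h < 2 * n, M h ^ (2 * 4 ^ e (h / 2)) * M (2 * n + h % 2) ^ 2 ≤
      B ^ (4 ^ e (h / 2)) * L h * O h) :
    keyB n k0 e (fun h => c * M h) ≤
      (B ^ (2 * n) * c ^ (12 * n)) ^ (Helper42.SG.sq n e) *
        (∏ h ∈ Finset.range (2 * n), L h ^ n * M h ^ (4 ^ e (h / 2))) *
        (∏ h ∈ Finset.range (2 * n), O h ^ n) /
        (∏ j ∈ Finset.range n, (min (M (2 * j)) (M (2 * j + 1))) ^ (k0 * 4 ^ e j)) *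
        (M (2 * n) * M (2 * n + 1)) ^ n := by
  have hq : ∀ j, 1 ≤ 4 ^ e j := fun j => Nat.one_le_pow _ _ (by norm_num)
  have hsq : 1 ≤ Helper42.SG.sq n e := by
    unfold Helper42.SG.sq
    calc 1 ≤ 4 ^ e 0 := hq 0
      _ ≤ ∑ j ∈ Finset.range n, 4 ^ e j :=
        Finset.single_le_sum (f := fun j => 4 ^ e j) (fun i _ => Nat.zero_le _)
          (Finset.mem_range.2 (by omega))
  have h1 : ∏ j ∈ Finset.range n, (((c * M (2 * j)) * (c * M (2 * j + 1))) ^ (2 * 4 ^ e j * n + 4 ^ e j) *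
      ((c * M (2 * n)) * (c * M (2 * n + 1))) ^ (2 * n) /
        (min (c * M (2 * j)) (c * M (2 * j + 1))) ^ (k0 * 4 ^ e j)) ≤
      ∏ j ∈ Finset.range n, ((B ^ (2 * n) * c ^ (10 * n)) ^ (4 ^ e j) *
        ((L (2 * j) ^ n * M (2 * j) ^ (4 ^ e j)) * (L (2 * j + 1) ^ n * M (2 * j + 1) ^ (4 ^ e j))) *
        (O (2 * j) ^ n * O (2 * j + 1) ^ n) /
        (min (M (2 * j)) (M (2 * j + 1))) ^ (k0 * 4 ^ e j)) := by
    apply Finset.prod_le_prod
    · intro j _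
      have := hM (2 * j)
      have := hM (2 * j + 1)
      have := hM (2 * n)
      have := hM (2 * n + 1)
      have : 0 ≤ min (c * M (2 * j)) (c * M (2 * j + 1)) := le_min (by positivity) (by positivity)
      positivity
    · intro j hj
      have hj' := Finset.mem_range.1 hj
      have a1 := h33 (2 * j) (by omega)
      have a2 := h33 (2 * j + 1) (by omega)
      rw [show 2 * j / 2 = j by omega, show 2 * j % 2 = 0 by omega] at a1
      rw [show (2 * j + 1) / 2 = j by omega, show (2 * j + 1) % 2 = 1 by omega] at a2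
      exact term_le n k0 (4 ^ e j) hn (hq j) c B _ _ _ _ _ _ _ _ hc hB (hM _) (hM _) (hM _) (hM _)
        (hL _) (hL _) (hO _) (hO _) a1 a2
  have h2 : ∏ j ∈ Finset.range n, ((B ^ (2 * n) * c ^ (10 * n)) ^ (4 ^ e j) *
        ((L (2 * j) ^ n * M (2 * j) ^ (4 ^ e j)) * (L (2 * j + 1) ^ n * M (2 * j + 1) ^ (4 ^ e j))) *
        (O (2 * j) ^ n * O (2 * j + 1) ^ n) /
        (min (M (2 * j)) (M (2 * j + 1))) ^ (k0 * 4 ^ e j)) =
      (B ^ (2 * n) * c ^ (10 * n)) ^ (Helper42.SG.sq n e) *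
        (∏ h ∈ Finset.range (2 * n), L h ^ n * M h ^ (4 ^ e (h / 2))) *
        (∏ h ∈ Finset.range (2 * n), O h ^ n) /
        (∏ j ∈ Finset.range n, (min (M (2 * j)) (M (2 * j + 1))) ^ (k0 * 4 ^ e j)) := by
    rw [prod_two, prod_two, Finset.prod_div_distrib, Finset.prod_mul_distrib,
      Finset.prod_mul_distrib, Finset.prod_pow_eq_pow_sum]
    have e5 : ∀ j : ℕ, 2 * j / 2 = j ∧ (2 * j + 1) / 2 = j := fun j => by omega
    simp only [e5]
    rfl
  have hmin : 0 < ∏ j ∈ Finset.range n, (min (M (2 * j)) (M (2 * j + 1))) ^ (k0 * 4 ^ e j) := by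
    apply Finset.prod_pos
    intro j _
    have : 1 ≤ min (M (2 * j)) (M (2 * j + 1)) := le_min (hM _) (hM _)
    positivity
  have hX : 0 ≤ ∏ h ∈ Finset.range (2 * n), L h ^ n * M h ^ (4 ^ e (h / 2)) := by
    apply Finset.prod_nonneg
    intro h _
    have := hM h
    have := hL h
    positivity
  have hY : 0 ≤ ∏ h ∈ Finset.range (2 * n), O h ^ n := by
    apply Finset.prod_nonneg
    intro h _
    have := hO h
    positivity
  have hZ : 0 ≤ (M (2 * n) * M (2 * n + 1)) ^ n := by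
    have := hM (2 * n)
    have := hM (2 * n + 1)
    positivity
  have h3 : ((c * M (2 * n)) * (c * M (2 * n + 1))) ^ n ≤
      (c ^ (2 * n)) ^ (Helper42.SG.sq n e) * (M (2 * n) * M (2 * n + 1)) ^ n := by
    have e1 : ((c * M (2 * n)) * (c * M (2 * n + 1))) ^ n =
        c ^ (2 * n) * (M (2 * n) * M (2 * n + 1)) ^ n := by ring
    rw [e1]
    gcongr
    exact le_self_pow₀ (one_le_pow₀ hc) (by omega)
  unfold keyB
  show (∏ j ∈ Finset.range n, (((c * M (2 * j)) * (c * M (2 * j + 1))) ^ (2 * 4 ^ e j * n + 4 ^ e j) *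
      ((c * M (2 * n)) * (c * M (2 * n + 1))) ^ (2 * n) /
        (min (c * M (2 * j)) (c * M (2 * j + 1))) ^ (k0 * 4 ^ e j))) *
      ((c * M (2 * n)) * (c * M (2 * n + 1))) ^ n ≤ _
  calc _ ≤ ((B ^ (2 * n) * c ^ (10 * n)) ^ (Helper42.SG.sq n e) *
        (∏ h ∈ Finset.range (2 * n), L h ^ n * M h ^ (4 ^ e (h / 2))) *
        (∏ h ∈ Finset.range (2 * n), O h ^ n) /
        (∏ j ∈ Finset.range n, (min (M (2 * j)) (M (2 * j + 1))) ^ (k0 * 4 ^ e j))) *
        ((c ^ (2 * n)) ^ (Helper42.SG.sq n e) * (M (2 * n) * M (2 * n + 1)) ^ n) := by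
        apply mul_le_mul (h1.trans h2.le) h3
        · have := hM (2 * n)
          have := hM (2 * n + 1)
          positivity
        · positivity
    _ = _ := by
        have e6 : (B ^ (2 * n) * c ^ (12 * n)) ^ (Helper42.SG.sq n e) =
            (B ^ (2 * n) * c ^ (10 * n)) ^ (Helper42.SG.sq n e) *
              (c ^ (2 * n)) ^ (Helper42.SG.sq n e) := by
          rw [← mul_pow]
          congr 1
          ring
        rw [e6]
        ring

section plc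

variable {K : Type} [Field K] [AdmissibleAbsValues K]

theorem plc_pos {B : AbsoluteValue K ℝ → ℝ} (h : PlC B) (v : AbsoluteValue K ℝ) : 0 < B v :=
  lt_of_lt_of_le one_pos (h.one_le v)

theorem plc_one : PlC (K := K) fun _ => 1 :=
  ⟨fun _ => le_rfl, by simpa using FS.zero⟩

theorem plc_mul {B B' : AbsoluteValue K ℝ → ℝ} (h : PlC B) (h' : PlC B') :
    PlC fun v => B v * B' v := by
  refine ⟨fun v => one_le_mul_of_one_le_of_one_le (h.one_le v) (h'.one_le v), ?_⟩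
  refine (h.fin.add h'.fin).mono fun v _ hv => ?_
  rw [Real.log_mul (plc_pos h v).ne' (plc_pos h' v).ne']
  exact hv

theorem plc_pow {B : AbsoluteValue K ℝ → ℝ} (h : PlC B) (k : ℕ) : PlC fun v => B v ^ k := by
  induction k with
  | zero => simpa using plc_one
  | succ k ih =>
    simp only [pow_succ]
    exact plc_mul ih h

end plc

theorem final_le (n q : ℕ) (hq : 1 ≤ q) (s b B B2 c X Y Z W P D T : ℝ) (hs : 0 ≤ s) (hb : 1 ≤ b)
    (hB : 1 ≤ B) (hB2 : 1 ≤ B2) (hc : 1 ≤ c) (hX : 0 ≤ X) (hY : 0 < Y) (hZ : 0 < Z) (hW : 0 ≤ W)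
    (hP : 0 < P) (h1 : Y * D * P⁻¹ ≤ s * b ^ (4 * n) * B ^ q * T)
    (h2 : T ≤ (B2 ^ (2 * n) * c ^ (12 * n)) ^ q * X * Y / Z * W) :
    D ≤ s * (B * b ^ (4 * n) * B2 ^ (2 * n) * c ^ (12 * n)) ^ q * X / Z * W * P := by
  have h3 : Y * D ≤ s * b ^ (4 * n) * B ^ q * T * P := by
    have := mul_le_mul_of_nonneg_right h1 hP.le
    rwa [mul_assoc, inv_mul_cancel₀ hP.ne', mul_one] at this
  have h4 : b ^ (4 * n) ≤ (b ^ (4 * n)) ^ q := le_self_pow₀ (one_le_pow₀ hb) (by omega)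
  have h5 : 0 ≤ (B2 ^ (2 * n) * c ^ (12 * n)) ^ q * X * Y / Z * W := by positivity
  refine le_of_mul_le_mul_left ?_ hY
  calc Y * D ≤ s * b ^ (4 * n) * B ^ q * T * P := h3
    _ ≤ s * b ^ (4 * n) * B ^ q * ((B2 ^ (2 * n) * c ^ (12 * n)) ^ q * X * Y / Z * W) * P := by
      gcongr
    _ ≤ s * (b ^ (4 * n)) ^ q * B ^ q * ((B2 ^ (2 * n) * c ^ (12 * n)) ^ q * X * Y / Z * W) * P := by
      gcongr
    _ = Y * (s * (B * b ^ (4 * n) * B2 ^ (2 * n) * c ^ (12 * n)) ^ q * X / Z * W * P) := by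
      rw [mul_pow (B * b ^ (4 * n) * B2 ^ (2 * n)), mul_pow (B * b ^ (4 * n)), mul_pow B,
        mul_pow (B2 ^ (2 * n))]
      ring

theorem t_LOCE (hF : FRPS) : LOCE := by
  intro K _ _ W n k0 B B' B'' hn hB hB' hB''
  refine ⟨fun v => B v * (B' v) ^ (4 * n) * (B'' v) ^ (2 * n) * (B' v) ^ (12 * n), ?_, ?_⟩
  · exact plc_mul (plc_mul (plc_mul hB (plc_pow hB' _)) (plc_pow hB'' _))
      (plc_pow hB' _)
  intro e c ξ ψ ω X Ψ α δ v s hKEY hOn hc hN h33 hδ
  have hq : ∀ j, 1 ≤ 4 ^ e j := fun j => Nat.one_le_pow _ _ (by norm_num)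
  have hsq : 1 ≤ Helper42.SG.sq n e := by
    unfold Helper42.SG.sq
    calc 1 ≤ 4 ^ e 0 := hq 0
      _ ≤ ∑ j ∈ Finset.range n, 4 ^ e j :=
        Finset.single_le_sum (f := fun j => 4 ^ e j) (fun i _ => Nat.zero_le _)
          (Finset.mem_range.2 (by omega))
  have hM : ∀ h, 1 ≤ Mv v (ξ h) := fun h => one_le_Mv v _
  have hO : ∀ h, 1 ≤ Mv v (ω h) := fun h => one_le_Mv v _
  have hb := hB'.one_le v
  have hc2 := hb
  have hL : ∀ h, 0 ≤ max (v (lawV (mapW K W) n e (fun _ => false) ξ ψ h).1)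
      (v (lawV (mapW K W) n e (fun _ => false) ξ ψ h).2) :=
    fun h => le_max_of_le_left (v.nonneg _)
  have hs : 0 ≤ s := (v.nonneg _).trans
    (hc ⟨fun h => (⟨0, by positivity⟩, 0), fun _ => ⟨0, by omega⟩⟩)
  obtain ⟨hfr, hcauchy⟩ := hF K v (Fin (2 * n + 2))
    (fun i => 1 / (B' v * Mv v (ξ i.val) ^ 2)) (by
      intro i
      have := hM i.val
      positivity)
  have hk := hKEY v (MvPowerSeries (Fin (2 * n + 2)) K) _ hfr X Ψ (fun h => B' v * Mv v (ξ h))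
    s (B' v) hOn (fun h _ => one_le_mul_of_one_le_of_one_le hc2 (hM h)) hb
    (fun h hh => (hN h hh).1) (fun h hh => hfr.mono _ _ _ (hN h hh).2 (by
      have h1 := hM h
      have h2 : Mv v (ξ h) ≤ B' v * Mv v (ξ h) := by nlinarith
      gcongr)) hc (fun h => decide (1 < v (ω h)))
  have hC := hcauchy _ _ α hk
  rw [hδ, map_mul, map_prod] at hC
  have e1 : ∏ h ∈ Finset.range (2 * n), v (if decide (1 < v (ω h)) = true then ω h ^ n else 1) =
      ∏ h ∈ Finset.range (2 * n), Mv v (ω h) ^ n := by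
    apply Finset.prod_congr rfl
    intro h _
    by_cases h1 : 1 < v (ω h)
    · simp only [h1, decide_true, if_true, map_pow]
      unfold Mv
      rw [max_eq_right h1.le]
    · simp only [h1, decide_false]
      unfold Mv
      rw [max_eq_left (not_lt.1 h1)]
      simp
  have e2 : rpw (fun i : Fin (2 * n + 2) => 1 / (B' v * Mv v (ξ i.val) ^ 2)) α =
      (∏ i : Fin (2 * n + 2), (B' v * Mv v (ξ i.val) ^ 2) ^ (α i))⁻¹ := by
    unfold rpw
    rw [Finsupp.prod_fintype _ _ (fun i => pow_zero _), ← Finset.prod_inv_distrib]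
    apply Finset.prod_congr rfl
    intro i _
    rw [one_div, inv_pow]
  rw [e1, e2] at hC
  have hkb := keyB_le n k0 e hn (B' v) (B'' v) (fun h => Mv v (ξ h))
    (fun h => max (v (lawV (mapW K W) n e (fun _ => false) ξ ψ h).1)
      (v (lawV (mapW K W) n e (fun _ => false) ξ ψ h).2)) (fun h => Mv v (ω h)) hc2
    (hB''.one_le v) hM hL hO h33
  refine final_le n (Helper42.SG.sq n e) hsq s (B' v) (B v) (B'' v) (B' v) _ _ _ _ _ (v δ) _ hs hb
    (hB.one_le v) (hB''.one_le v) hc2 ?_ ?_ ?_ ?_ ?_ hC hkb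
  · apply Finset.prod_nonneg
    intro h _
    have := hM h
    have := hL h
    positivity
  · apply Finset.prod_pos
    intro h _
    have := hO h
    positivity
  · apply Finset.prod_pos
    intro j _
    have : 1 ≤ min (Mv v (ξ (2 * j))) (Mv v (ξ (2 * j + 1))) := le_min (hM _) (hM _)
    positivity
  · have := hM (2 * n)
    have := hM (2 * n + 1)
    positivity
  · apply Finset.prod_pos
    intro i _
    have := hM i.val
    positivity

end Pool.Agent.Helper36.SGT
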